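import Pool.Agent.Helper56.LD.Basics
import Pool.Agent.Helper56.LD.Goals

/-!
# SM5: lower semicontinuity, parametrized form (MP_0152c0_gt)
-/

set_option autoImplicit false

namespace Pool.Agent.Helper54.LD

open Set Filter Topology
open Pool.Agent.Helper56.LD

section
variable {L Ω : Type} [DecidableEq L] [DecidableEq Ω] [TopologicalSpace L] [DiscreteTopology L]

/-- a neighbourhood of a ray. -/
lemma nbhd_ray (lt : ℕ → L → Ω) {U : Set (Amb L Ω)} (hU : IsOpen U) {n : ℕ} {e : ℕ → L} {w : ℝ}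
    (h : pt lt n e w ∈ U) : ∃ k : ℕ, ∀ e' : ℕ → L, (∀ j < k, e' j = e j) → pt lt n e' w ∈ U := by
  have hc : Continuous (fun e' : ℕ → L => pt lt n e' w) :=
    (continuous_pt lt n).comp (Continuous.prodMk continuous_id continuous_const)
  have hV : IsOpen ((fun e' : ℕ → L => pt lt n e' w) ⁻¹' U) := hU.preimage hc
  obtain ⟨s, ⟨x, k, rfl⟩, hes, hsub⟩ :=
    (PiNat.isTopologicalBasis_cylinders (fun _ : ℕ => L)).exists_subset_of_mem_open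
      (show e ∈ _ from h) hV
  refine ⟨k, fun e' he' => hsub ?_⟩
  rw [PiNat.mem_cylinder_iff] at hes ⊢
  intro i hi
  rw [he' i hi, hes i hi]

/-- a neighbourhood of a parameter. -/
lemma nbhd_par (lt : ℕ → L → Ω) {U : Set (Amb L Ω)} (hU : IsOpen U) {n : ℕ} {e : ℕ → L} {w : ℝ}
    (h : pt lt n e w ∈ U) : ∃ δ > 0, ∀ w' : ℝ, |w' - w| < δ → pt lt n e w' ∈ U := by
  have hc : Continuous (fun w' : ℝ => pt lt n e w') :=
    (continuous_pt lt n).comp (Continuous.prodMk continuous_const continuous_id)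
  have hV : IsOpen ((fun w' : ℝ => pt lt n e w') ⁻¹' U) := hU.preimage hc
  obtain ⟨δ, hδ, hb⟩ := Metric.isOpen_iff.1 hV w h
  exact ⟨δ, hδ, fun w' hw' => hb (by rwa [Metric.mem_ball, Real.dist_eq])⟩

end

section
variable {L Ω : Type} [DecidableEq L] [DecidableEq Ω] [TopologicalSpace L] [DiscreteTopology L]
  (lt : ℕ → L → Ω) (b : ℕ → L → Prop) (E : Set (ℕ → L)) (A : Set (ℕ → L))
  (S : (ℕ → L) → Set (ℕ → L))

/-- The conclusion. -/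
def Concl (a : ℕ → L) (τ : ℝ) (U : Set (Amb L Ω)) : Prop :=
  ∃ K : ℕ, ∃ ε > 0, ∀ a' ∈ A, (∀ j < K, a' j = a j) → ∀ τ' ∈ Icc (0 : ℝ) 1, |τ' - τ| < ε →
    (GS lt b E (S a') τ' ∩ U).Nonempty

lemma fromI
    (h1 : ∀ a ∈ A, ∀ e ∈ S a, ∀ k : ℕ, ∃ K : ℕ, ∀ a' ∈ A, (∀ j < K, a' j = a j) →
      ∃ e' ∈ S a', ∀ j < k, e' j = e j)
    {a : ℕ → L} (ha : a ∈ A) {τ : ℝ} {U : Set (Amb L Ω)} (hU : IsOpen U)
    {n : ℕ} {e : ℕ → L} {w : ℝ} (hw : w ∈ Icc (0 : ℝ) 1) (he : e ∈ S a) (hub : UB b e n)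
    (hm : pt lt n e w ∈ U) (hh : 1 - 2 * τ < hgt n w ∨ hgt n w = 1) :
    Concl lt b E A S a τ U := by
  obtain ⟨k, hk⟩ := nbhd_ray lt hU hm
  obtain ⟨K, hK⟩ := h1 a ha e he (max k (n + 1))
  obtain ⟨ε, hε, hε'⟩ : ∃ ε > 0, ∀ τ' ∈ Icc (0 : ℝ) 1, |τ' - τ| < ε → 1 - 2 * τ' ≤ hgt n w := by
    rcases hh with hh | hh
    · refine ⟨(hgt n w - (1 - 2 * τ)) / 2, by linarith, fun τ' _ h => ?_⟩
      have := (abs_lt.1 h).1
      linarith
    · refine ⟨1, one_pos, fun τ' h _ => ?_⟩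
      have := h.1
      rw [hh]; linarith
  refine ⟨K, ε, hε, fun a' ha' haa τ' hτ' hd => ?_⟩
  obtain ⟨e', he', hee⟩ := hK a' ha' haa
  refine ⟨pt lt n e' w, subset_closure ?_, hk e' fun j hj => hee j (lt_max_of_lt_left hj)⟩
  exact ⟨n, e', w, hw, rfl, hub.congr fun j hj => hee j (lt_max_of_lt_right (by omega)),
    Or.inl ⟨he', hε' τ' hτ' hd⟩⟩

lemma fromII
    (h2 : ∀ a ∈ A, ∀ e ∈ sat b E (S a), ∀ k : ℕ, ∃ K : ℕ, ∀ a' ∈ A, (∀ j < K, a' j = a j) →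
      ∃ e' ∈ sat b E (S a'), ∀ j < k, e' j = e j)
    {a : ℕ → L} (ha : a ∈ A) {τ : ℝ} {U : Set (Amb L Ω)} (hU : IsOpen U)
    {n : ℕ} {e : ℕ → L} {w : ℝ} (hw : w ∈ Icc (0 : ℝ) 1) (he : e ∈ sat b E (S a))
    (hub : UB b e n) (hm : pt lt n e w ∈ U) (hh : hgt n w < 2 * τ - 1) :
    Concl lt b E A S a τ U := by
  obtain ⟨k, hk⟩ := nbhd_ray lt hU hm
  obtain ⟨K, hK⟩ := h2 a ha e he (max k (n + 1))
  refine ⟨K, (2 * τ - 1 - hgt n w) / 2, by linarith, fun a' ha' haa τ' hτ' hd => ?_⟩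
  obtain ⟨e', he', hee⟩ := hK a' ha' haa
  refine ⟨pt lt n e' w, subset_closure ?_, hk e' fun j hj => hee j (lt_max_of_lt_left hj)⟩
  refine ⟨n, e', w, hw, rfl, hub.congr fun j hj => hee j (lt_max_of_lt_right (by omega)),
    Or.inr ⟨he', ?_⟩⟩
  have := (abs_lt.1 hd).1
  linarith

lemma caseI1
    (h1 : ∀ a ∈ A, ∀ e ∈ S a, ∀ k : ℕ, ∃ K : ℕ, ∀ a' ∈ A, (∀ j < K, a' j = a j) →
      ∃ e' ∈ S a', ∀ j < k, e' j = e j)
    {a : ℕ → L} (ha : a ∈ A) {τ : ℝ} {U : Set (Amb L Ω)} (hU : IsOpen U)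
    {n : ℕ} {e : ℕ → L} {w : ℝ} (hw : 0 ≤ w) (hw1 : w < 1) (he : e ∈ S a) (hub : UB b e n)
    (hm : pt lt n e w ∈ U) (hh : 1 - 2 * τ ≤ hgt n w) :
    Concl lt b E A S a τ U := by
  obtain ⟨δ, hδ, hd⟩ := nbhd_par lt hU hm
  have hlt : w < min (w + δ / 2) ((w + 1) / 2) := lt_min (by linarith) (by linarith)
  have hle1 : min (w + δ / 2) ((w + 1) / 2) ≤ w + δ / 2 := min_le_left _ _
  have hle2 : min (w + δ / 2) ((w + 1) / 2) ≤ (w + 1) / 2 := min_le_right _ _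
  refine fromI lt b E A S h1 ha hU (w := min (w + δ / 2) ((w + 1) / 2)) ⟨by linarith, by linarith⟩
    he hub (hd _ ?_) (Or.inl (hh.trans_lt (hgt_lt_of_lt hlt)))
  rw [abs_lt]
  constructor <;> linarith

lemma caseI
    (h1 : ∀ a ∈ A, ∀ e ∈ S a, ∀ k : ℕ, ∃ K : ℕ, ∀ a' ∈ A, (∀ j < K, a' j = a j) →
      ∃ e' ∈ S a', ∀ j < k, e' j = e j)
    {a : ℕ → L} (ha : a ∈ A) {τ : ℝ} {U : Set (Amb L Ω)} (hU : IsOpen U)
    {n : ℕ} {e : ℕ → L} {w : ℝ} (hw : w ∈ Icc (0 : ℝ) 1) (he : e ∈ S a) (hub : UB b e n)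
    (hm : pt lt n e w ∈ U) (hh : 1 - 2 * τ ≤ hgt n w) :
    Concl lt b E A S a τ U := by
  rcases hw.2.lt_or_eq with h | h
  · exact caseI1 lt b E A S h1 ha hU hw.1 h he hub hm hh
  · subst h
    rcases Nat.eq_zero_or_pos n with h0 | h0
    · subst h0
      exact fromI lt b E A S h1 ha hU hw he hub hm (Or.inr (by rw [hgt_one]; norm_num))
    · obtain ⟨m, rfl⟩ : ∃ m, n = m + 1 := ⟨n - 1, by omega⟩
      refine caseI1 lt b E A S h1 ha hU le_rfl one_pos he (hub.mono (Nat.le_succ m)) ?_ ?_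
      · rw [pt_zero]; exact hm
      · rw [hgt_zero_succ]; exact hh

lemma caseII1
    (h2 : ∀ a ∈ A, ∀ e ∈ sat b E (S a), ∀ k : ℕ, ∃ K : ℕ, ∀ a' ∈ A, (∀ j < K, a' j = a j) →
      ∃ e' ∈ sat b E (S a'), ∀ j < k, e' j = e j)
    {a : ℕ → L} (ha : a ∈ A) {τ : ℝ} {U : Set (Amb L Ω)} (hU : IsOpen U)
    {n : ℕ} {e : ℕ → L} {w : ℝ} (hw : 0 < w) (hw1 : w ≤ 1) (he : e ∈ sat b E (S a))
    (hub : UB b e n) (hm : pt lt n e w ∈ U) (hh : hgt n w ≤ 2 * τ - 1) :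
    Concl lt b E A S a τ U := by
  obtain ⟨δ, hδ, hd⟩ := nbhd_par lt hU hm
  have hlt : max (w - δ / 2) (w / 2) < w := max_lt (by linarith) (by linarith)
  have hle1 : w - δ / 2 ≤ max (w - δ / 2) (w / 2) := le_max_left _ _
  have hle2 : w / 2 ≤ max (w - δ / 2) (w / 2) := le_max_right _ _
  refine fromII lt b E A S h2 ha hU (w := max (w - δ / 2) (w / 2)) ⟨by linarith, by linarith⟩
    he hub (hd _ ?_) ((hgt_lt_of_lt hlt).trans_le hh)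
  rw [abs_lt]
  constructor <;> linarith

end

theorem pf_StmtLSC : StmtLSC := by
  intro L Ω _ _ _ _ _ _ lt b E A S hSE h1 h2 a ha τ hτ U hU hne
  change Concl lt b E A S a τ U
  have hne' : (YS lt b E (S a) τ ∩ U).Nonempty := by
    obtain ⟨y, hy, hyU⟩ := hne
    obtain ⟨z, hz⟩ := mem_closure_iff.1 hy U hU hyU
    exact ⟨z, hz.2, hz.1⟩
  obtain ⟨y, ⟨n, e, w, hw, rfl, hub, h⟩, hyU⟩ := hne'
  rcases h with ⟨he, hh⟩ | ⟨he, hh⟩
  · exact caseI lt b E A S h1 ha hU hw he hub hyU hh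
  · rcases hw.1.eq_or_lt with h0 | h0
    · subst h0
      by_cases hub' : UB b e (n + 1)
      · refine caseII1 lt b E A S h2 ha hU one_pos le_rfl he hub' ?_ ?_
        · rw [← pt_zero]; exact hyU
        · rw [← hgt_zero_succ]; exact hh
      · obtain ⟨-, s, hs, hes⟩ := he
        have htail : ∀ j, n + 1 ≤ j → e j = s j := fun j hj =>
          (hes j).2 fun hc => hub' (hc.mono hj)
        refine caseI lt b E A S h1 ha hU hw hs ((hes n).1.1 hub) ?_ ?_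
        · rw [← pt_congr_zero lt htail]; exact hyU
        · have := hgt_pos (n := n) (le_refl (0 : ℝ))
          linarith
    · exact caseII1 lt b E A S h2 ha hU h0 hw.2 he hub hyU hh

end Pool.Agent.Helper54.LD
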